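import Pool.Agent.Q265.LO.Loc

/-! # Spherical signatures: the transfer and the dihedral family -/

set_option autoImplicit false

open Finset

namespace Q265.SP

open Q241.AC (R)
open Q265.LO

/-- the transfer of the inequality by maps of bounded degree, with constants -/
theorem back2 {T T' : Set (ℕ × ℕ × ℕ)} (D : ℕ) (hpos : ∀ t ∈ T, 1 ≤ t.2.2)
    (h : ∀ t ∈ T, ∃ t' ∈ T', ∃ d : ℕ, 1 ≤ d ∧ d ≤ D ∧ t.2.2 ^ d ≤ D * t'.2.2 ∧
      R (t'.1 * t'.2.1 * t'.2.2) ≤ R (t.1 * t.2.1 * t.2.2) * (D * t.2.2 ^ (d - 1)))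
    (hT' : On T') : On T := by
  intro ε hε
  obtain ⟨δ, hδ⟩ : ∃ δ : ℝ, δ = ε / (1 + (1 + ε) * D) := ⟨_, rfl⟩
  have hD0 : (0 : ℝ) ≤ D := Nat.cast_nonneg _
  have hδ0 : 0 < δ := by rw [hδ]; positivity
  have hδ1 : δ * (1 + (1 + ε) * D) = ε := by
    rw [hδ]
    field_simp
  have hδD : 0 < 1 - D * δ := by
    have h1 : D * δ * (1 + ε) < 1 + ε := by nlinarith
    nlinarith
  obtain ⟨κ, hκ⟩ := hT' δ hδ0
  obtain ⟨K, hK⟩ : ∃ K : ℝ, K = max (D * κ * (D : ℝ) ^ (1 + δ)) 1 := ⟨_, rfl⟩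
  have hK1 : 1 ≤ K := by rw [hK]; exact le_max_right _ _
  have hK0 : 0 < K := by linarith
  refine ⟨K ^ (1 / (1 - D * δ)), fun t ht => ?_⟩
  obtain ⟨t', ht', d, hd1, hdD, hc, hR⟩ := h t ht
  obtain ⟨c, hcc⟩ : ∃ c : ℝ, c = (t.2.2 : ℝ) := ⟨_, rfl⟩
  obtain ⟨ρ, hρ⟩ : ∃ ρ : ℝ, ρ = (R (t.1 * t.2.1 * t.2.2) : ℝ) := ⟨_, rfl⟩
  rw [← hcc, ← hρ]
  have hc1 : 1 ≤ c := by rw [hcc]; exact_mod_cast hpos t ht
  have hcp : 0 < c := by linarith
  have hρ1 : 1 ≤ ρ := by rw [hρ]; exact Q241.AC.R_one_le _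
  have hρ0 : 0 < ρ := by linarith
  have h1 := hκ t' ht'
  have hRr : (R (t'.1 * t'.2.1 * t'.2.2) : ℝ) ≤ ρ * (D * c ^ (d - 1)) := by
    rw [hρ, hcc]
    exact_mod_cast hR
  have hD1 : (1 : ℝ) ≤ D := by exact_mod_cast hd1.trans hdD
  have hDp : (0 : ℝ) < D := by linarith
  have hR1 : (1 : ℝ) ≤ R (t'.1 * t'.2.1 * t'.2.2) := Q241.AC.R_one_le _
  have hcd : c ^ d ≤ D * (κ * (R (t'.1 * t'.2.1 * t'.2.2) : ℝ) ^ (1 + δ)) := by
    have e : c ^ d ≤ D * (t'.2.2 : ℝ) := by rw [hcc]; exact_mod_cast hc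
    calc c ^ d ≤ D * (t'.2.2 : ℝ) := e
      _ ≤ _ := by gcongr
  have hκ0 : 0 < κ := by
    by_contra hcon
    push Not at hcon
    have h2 : 0 < c ^ d := pow_pos hcp d
    have h3 : 0 < (R (t'.1 * t'.2.1 * t'.2.2) : ℝ) ^ (1 + δ) := Real.rpow_pos_of_pos (by linarith) _
    have h4 : κ * (R (t'.1 * t'.2.1 * t'.2.2) : ℝ) ^ (1 + δ) ≤ 0 :=
      mul_nonpos_of_nonpos_of_nonneg hcon h3.le
    have h5 : D * (κ * (R (t'.1 * t'.2.1 * t'.2.2) : ℝ) ^ (1 + δ)) ≤ 0 :=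
      mul_nonpos_of_nonneg_of_nonpos hD0 h4
    linarith
  have hmain : c ^ d ≤ K * ρ ^ (1 + δ) * c ^ ((d - 1 : ℝ) * (1 + δ)) := by
    calc c ^ d ≤ D * (κ * (R (t'.1 * t'.2.1 * t'.2.2) : ℝ) ^ (1 + δ)) := hcd
      _ ≤ D * (κ * (ρ * (D * c ^ (d - 1))) ^ (1 + δ)) := by gcongr
      _ = D * κ * (D : ℝ) ^ (1 + δ) * ρ ^ (1 + δ) * (c ^ (d - 1)) ^ (1 + δ) := by
        rw [Real.mul_rpow hρ0.le (by positivity), Real.mul_rpow hDp.le (by positivity)]
        ring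
      _ ≤ K * ρ ^ (1 + δ) * (c ^ (d - 1)) ^ (1 + δ) := by
        gcongr
        rw [hK]
        exact le_max_left _ _
      _ = K * ρ ^ (1 + δ) * c ^ ((d - 1 : ℝ) * (1 + δ)) := by
        congr 1
        rw [← Real.rpow_natCast c (d - 1), ← Real.rpow_mul hcp.le, Nat.cast_sub hd1]
        norm_num
  obtain ⟨e, he⟩ : ∃ e : ℝ, e = 1 - (d - 1 : ℝ) * δ := ⟨_, rfl⟩
  have hd1r : (1 : ℝ) ≤ d := by exact_mod_cast hd1
  have hdDr : (d : ℝ) ≤ D := by exact_mod_cast hdD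
  have hedge : 1 - D * δ ≤ e := by
    rw [he]
    nlinarith
  have he0 : 0 < e := by linarith
  have hce : c ^ e ≤ K * ρ ^ (1 + δ) := by
    have h2 : c ^ d = c ^ e * c ^ ((d - 1 : ℝ) * (1 + δ)) := by
      rw [← Real.rpow_add hcp, ← Real.rpow_natCast, he]
      congr 1
      ring
    rw [h2] at hmain
    exact le_of_mul_le_mul_right hmain (Real.rpow_pos_of_pos hcp _)
  have hexp : (1 + δ) * (1 / e) ≤ 1 + ε := by
    rw [mul_one_div, div_le_iff₀ he0]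
    have h3 : 1 + δ ≤ (1 + ε) * (1 - D * δ) := by
      have : (1 + ε) * (1 - D * δ) = 1 + ε - (1 + ε) * D * δ := by ring
      rw [this]
      linarith
    calc 1 + δ ≤ (1 + ε) * (1 - D * δ) := h3
      _ ≤ (1 + ε) * e := by gcongr
  calc c = (c ^ e) ^ (1 / e) := by
        rw [← Real.rpow_mul hcp.le, mul_one_div_cancel he0.ne', Real.rpow_one]
    _ ≤ (K * ρ ^ (1 + δ)) ^ (1 / e) :=
        Real.rpow_le_rpow (Real.rpow_nonneg hcp.le _) hce (by positivity)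
    _ = K ^ (1 / e) * ρ ^ ((1 + δ) * (1 / e)) := by
        rw [Real.mul_rpow hK0.le (by positivity), ← Real.rpow_mul hρ0.le]
    _ ≤ K ^ (1 / (1 - D * δ)) * ρ ^ (1 + ε) := by
        gcongr

/-- comparison of radicals -/
lemma R_le_of {m a w : ℕ} (ha : a ≠ 0) (hw : w ≠ 0)
    (h : ∀ p : ℕ, p.Prime → p ∣ m → p ∣ a * w) : R m ≤ R a * w := by
  have h1 : R m ≤ R (a * w) := by
    unfold R
    refine Finset.prod_le_prod_of_subset_of_one_le' ?_ ?_
    · intro p hp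
      rw [Nat.mem_primeFactors] at hp ⊢
      exact ⟨hp.1, h p hp.1 hp.2.1, mul_ne_zero ha hw⟩
    · intro p hp _
      exact (Nat.prime_of_mem_primeFactors hp).one_lt.le
  exact h1.trans (R_mul_le ha hw)

/-- in a triple one of the two summands has a parity different from `c` -/
lemma choose_pair {a b c : ℕ} (ha : 0 < a) (hb : 0 < b) (hcop : Nat.Coprime a b) (hc : a + b = c) :
    ∃ y : ℕ, 0 < y ∧ y < c ∧ Nat.Coprime c y ∧ Odd (c + y) ∧ c * y * (c - y) = a * b * c := by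
  by_cases h : Odd b
  · refine ⟨a, ha, by omega, ?_, ?_, ?_⟩
    · rw [← hc]
      exact (Nat.coprime_add_self_left (m := b) (n := a)).2 hcop.symm |> fun h => by
        rwa [add_comm] at h
    · rw [← hc]
      obtain ⟨k, hk⟩ := h
      exact ⟨a + k, by omega⟩
    · have : c - a = b := by omega
      rw [this]
      ring
  · rw [Nat.not_odd_iff_even] at h
    have ha' : Odd a := by
      by_contra hcon
      rw [Nat.not_odd_iff_even] at hcon
      have h1 : 2 ∣ Nat.gcd a b := Nat.dvd_gcd hcon.two_dvd h.two_dvd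
      rw [hcop] at h1
      omega
    refine ⟨b, hb, by omega, ?_, ?_, ?_⟩
    · rw [← hc]
      exact (Nat.coprime_add_self_left (m := a) (n := b)).2 hcop
    · rw [← hc]
      obtain ⟨k, hk⟩ := ha'
      exact ⟨b + k, by omega⟩
    · have : c - b = a := by omega
      rw [this]
      ring

/-- `x ^ 2 + 4 y ^ n = z ^ 2` -/
def Dih (n : ℕ) : Set (ℕ × ℕ × ℕ) :=
  {t | IsTriple t ∧ ∃ x y z : ℕ, t.1 = x ^ 2 ∧ t.2.1 = 4 * y ^ n ∧ t.2.2 = z ^ 2}

theorem dih {n : ℕ} (hn : 1 ≤ n) (h : On (Dih n)) : On {t | IsTriple t} := by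
  refine back2 (4 * n) ?_ ?_ h
  · rintro t ⟨h1, h2, h3, h4⟩
    omega
  · rintro ⟨a, b, c⟩ ⟨h1, h2, h3, h4⟩
    simp only at h1 h2 h3 h4
    obtain ⟨y, hy0, hyc, hcop, hodd, hprod⟩ := choose_pair h1 h2 h3 h4
    have hc0 : 0 < c := by omega
    have hlt : y ^ n < c ^ n := Nat.pow_lt_pow_left hyc (by omega)
    obtain ⟨m, rfl⟩ : ∃ m, n = m + 1 := ⟨n - 1, by omega⟩
    -- the cofactor
    obtain ⟨Q, hQ1, hQ2, hQ0⟩ := pow_split y (c - y) m (by omega)
    have hyc' : y + (c - y) = c := by omega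
    rw [hyc'] at hQ1 hQ2
    have hodd' : Odd (c ^ (m + 1) + y ^ (m + 1)) := by
      rw [Nat.odd_add, Nat.odd_pow_iff (by omega), Nat.even_pow' (by omega)]
      exact Nat.odd_add.1 hodd
    obtain ⟨u, hu⟩ : ∃ u : ℕ, u = c ^ (m + 1) - y ^ (m + 1) := ⟨_, rfl⟩
    obtain ⟨w, hw⟩ : ∃ w : ℕ, w = c ^ (m + 1) + y ^ (m + 1) := ⟨_, rfl⟩
    have hu0 : 0 < u := by omega
    have huw : u ^ 2 + 4 * (c * y) ^ (m + 1) = w ^ 2 := by
      have e1 : c ^ (m + 1) = u + y ^ (m + 1) := by omega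
      rw [hw, mul_pow, e1]
      ring
    have huQ : u = (c - y) * Q := by omega
    rw [← hw] at hodd'
    have hcw : Nat.Coprime (c * y) w := by
      have hcy : Nat.Coprime (c ^ (m + 1)) (y ^ (m + 1)) := Nat.Coprime.pow _ _ hcop
      refine Nat.Coprime.mul_left ?_ ?_
      · have h5 : Nat.Coprime (c ^ (m + 1)) w := by
          rw [hw]
          exact (Nat.coprime_self_add_right).2 hcy
        exact Nat.Coprime.coprime_dvd_left (dvd_pow_self c (by omega)) h5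
      · have h5 : Nat.Coprime (y ^ (m + 1)) w := by
          rw [hw]
          exact (Nat.coprime_add_self_right).2 hcy.symm
        exact Nat.Coprime.coprime_dvd_left (dvd_pow_self y (by omega)) h5
    have hcop' : Nat.Coprime (u ^ 2) (4 * (c * y) ^ (m + 1)) := by
      have h5 : Nat.Coprime (w ^ 2) (4 * (c * y) ^ (m + 1)) := by
        refine Nat.Coprime.pow_left 2 (Nat.Coprime.mul_right ?_ (Nat.Coprime.pow_right _ hcw.symm))
        have : Nat.Coprime w (2 ^ 2) := Nat.Coprime.pow_right 2 (Nat.coprime_two_right.2 hodd')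
        exact this
      rw [← huw] at h5
      exact (Nat.coprime_add_self_left).1 h5
    refine ⟨(u ^ 2, 4 * (c * y) ^ (m + 1), w ^ 2), ⟨⟨by positivity, by positivity, hcop', huw⟩,
      u, c * y, w, rfl, rfl, rfl⟩, 2 * (m + 1), by omega, by omega, ?_, ?_⟩
    · show c ^ (2 * (m + 1)) ≤ 4 * (m + 1) * w ^ 2
      have h5 : c ^ (m + 1) ≤ w := by omega
      calc c ^ (2 * (m + 1)) = (c ^ (m + 1)) ^ 2 := by rw [← pow_mul, mul_comm]
        _ ≤ w ^ 2 := Nat.pow_le_pow_left h5 2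
        _ ≤ 4 * (m + 1) * w ^ 2 := Nat.le_mul_of_pos_left _ (by omega)
    · show R (u ^ 2 * (4 * (c * y) ^ (m + 1)) * w ^ 2) ≤
        R (a * b * c) * (4 * (m + 1) * c ^ (2 * (m + 1) - 1))
      have hne : a * b * c ≠ 0 := by positivity
      have hw0 : 0 < w := by omega
      have h6 : R (u ^ 2 * (4 * (c * y) ^ (m + 1)) * w ^ 2) ≤ R (a * b * c) * (2 * Q * w) := by
        refine R_le_of hne (by positivity) fun p hp hpd => ?_
        rw [← hprod]
        have hsplit : p ∣ u ∨ p ∣ 2 ∨ p ∣ c * y ∨ p ∣ w := by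
          rcases (Nat.Prime.dvd_mul hp).1 hpd with h7 | h7
          · rcases (Nat.Prime.dvd_mul hp).1 h7 with h8 | h8
            · exact Or.inl (hp.dvd_of_dvd_pow h8)
            · rcases (Nat.Prime.dvd_mul hp).1 h8 with h9 | h9
              · exact Or.inr (Or.inl (hp.dvd_of_dvd_pow (show p ∣ 2 ^ 2 from h9)))
              · exact Or.inr (Or.inr (Or.inl (hp.dvd_of_dvd_pow h9)))
          · exact Or.inr (Or.inr (Or.inr (hp.dvd_of_dvd_pow h7)))
        rcases hsplit with h7 | h7 | h7 | h7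
        · rw [huQ] at h7
          exact h7.trans ⟨c * y * 2 * w, by ring⟩
        · exact h7.trans ⟨c * y * (c - y) * Q * w, by ring⟩
        · exact h7.trans ⟨(c - y) * (2 * Q * w), by ring⟩
        · exact h7.trans ⟨c * y * (c - y) * (2 * Q), by ring⟩
      refine h6.trans (Nat.mul_le_mul_left _ ?_)
      have h7 : w ≤ 2 * c ^ (m + 1) := by omega
      calc 2 * Q * w ≤ 2 * ((m + 1) * c ^ m) * (2 * c ^ (m + 1)) := by gcongr
        _ = 4 * (m + 1) * (c ^ m * c ^ (m + 1)) := by ring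
        _ = 4 * (m + 1) * c ^ (2 * (m + 1) - 1) := by
          rw [← pow_add]
          congr 2
          omega

end Q265.SP
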