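import Pool.Agent.Q265.SP.A

/-! # Spherical signatures: the octahedral and the tetrahedral family -/

set_option autoImplicit false

open Finset

namespace Q265.SP

open Q241.AC (R)
open Q265.LO

/-- `x ^ 2 + 108 y ^ 4 = z ^ 3` -/
def Oct : Set (ℕ × ℕ × ℕ) :=
  {t | IsTriple t ∧ ∃ x y z : ℕ, t.1 = x ^ 2 ∧ t.2.1 = 108 * y ^ 4 ∧ t.2.2 = z ^ 3}

lemma oct_mod {x y : ℕ} (h : ¬(3 ∣ x ∧ 3 ∣ y)) : ¬ 3 ∣ x ^ 8 + 14 * x ^ 4 * y ^ 4 + y ^ 8 := by
  intro h3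
  have hx : x % 3 = 0 ∨ x % 3 = 1 ∨ x % 3 = 2 := by omega
  have hy : y % 3 = 0 ∨ y % 3 = 1 ∨ y % 3 = 2 := by omega
  have key : (x ^ 8 + 14 * x ^ 4 * y ^ 4 + y ^ 8) % 3 =
      ((x % 3) ^ 8 + 14 * (x % 3) ^ 4 * (y % 3) ^ 4 + (y % 3) ^ 8) % 3 := by
    simp [Nat.add_mod, Nat.mul_mod, Nat.pow_mod]
  rw [Nat.dvd_iff_mod_eq_zero, key] at h3
  rcases hx with hx | hx | hx <;> rcases hy with hy | hy | hy <;> rw [hx, hy] at h3 <;> omega

theorem oct (h : On Oct) : On {t | IsTriple t} := by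
  refine back2 (6 * 2 * 2 * 68 * 16) ?_ ?_ h
  · rintro t ⟨h1, h2, h3, h4⟩
    omega
  · rintro ⟨a, b, c⟩ ⟨h1, h2, h3, h4⟩
    simp only at h1 h2 h3 h4
    obtain ⟨y, hy0, hyc, hcop, hodd, hprod⟩ := choose_pair h1 h2 h3 h4
    have hc0 : 0 < c := by omega
    obtain ⟨z, hz⟩ : ∃ z : ℕ, z = c - y := ⟨_, rfl⟩
    have hzc : c = y + z := by omega
    have hz0 : 0 < z := by omega
    rw [← hz] at hprod
    -- the forms
    obtain ⟨W, hW⟩ : ∃ W : ℕ, W = c ^ 8 + 14 * c ^ 4 * y ^ 4 + y ^ 8 := ⟨_, rfl⟩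
    obtain ⟨g, hg⟩ : ∃ g : ℕ, g = z * ((c + y) * (c ^ 2 + y ^ 2)) := ⟨_, rfl⟩
    obtain ⟨f, hf⟩ : ∃ f : ℕ, f = c * y * g := ⟨_, rfl⟩
    obtain ⟨k, hk⟩ : ∃ k : ℤ, k = (c : ℤ) ^ 12 - 33 * (c : ℤ) ^ 8 * (y : ℤ) ^ 4 -
      33 * (c : ℤ) ^ 4 * (y : ℤ) ^ 8 + (y : ℤ) ^ 12 := ⟨_, rfl⟩
    have hgz : (g : ℤ) = (c : ℤ) ^ 4 - (y : ℤ) ^ 4 := by
      rw [hg, hzc]
      push_cast
      ring
    have hid : k ^ 2 + 108 * (f : ℤ) ^ 4 = (W : ℤ) ^ 3 := by
      rw [hf, hW]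
      push_cast
      rw [hgz, hk]
      ring
    obtain ⟨K, hK⟩ : ∃ K : ℕ, K = k.natAbs := ⟨_, rfl⟩
    have hK2 : (K : ℤ) ^ 2 = k ^ 2 := by rw [hK, Int.natCast_natAbs, sq_abs]
    have hidn : K ^ 2 + 108 * f ^ 4 = W ^ 3 := by
      have : (K : ℤ) ^ 2 + 108 * (f : ℤ) ^ 4 = (W : ℤ) ^ 3 := by rw [hK2]; exact hid
      exact_mod_cast this
    -- parity
    have hWodd : Odd W := by
      have h5 : Even (14 * c ^ 4 * y ^ 4) := ⟨7 * c ^ 4 * y ^ 4, by ring⟩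
      have h6 : Odd (c ^ 8 + y ^ 8) := by
        rw [Nat.odd_add, Nat.odd_pow_iff (by norm_num), Nat.even_pow' (by norm_num)]
        exact Nat.odd_add.1 hodd
      have h7 : W = (c ^ 8 + y ^ 8) + 14 * c ^ 4 * y ^ 4 := by rw [hW]; ring
      rw [h7]
      exact h6.add_even h5
    have hK0 : K ≠ 0 := by
      intro h5
      rw [h5] at hidn
      have h6 : Even (W ^ 3) := ⟨54 * f ^ 4, by omega⟩
      rw [Nat.even_pow] at h6
      exact (Nat.not_even_iff_odd.2 hWodd) h6.1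
    have hW3 : ¬ 3 ∣ W := by
      rw [hW]
      refine oct_mod fun ⟨h5, h6⟩ => ?_
      have := Nat.dvd_gcd h5 h6
      rw [hcop] at this
      omega
    have hp1 : ∀ p : ℕ, p.Prime → p ∣ W → ¬ p ∣ c ∧ ¬ p ∣ y := by
      intro p hp hpW
      have h5 : p ∣ c → ¬ p ∣ y := fun h6 h7 => by
        have := Nat.dvd_gcd h6 h7
        rw [hcop] at this
        exact hp.one_lt.ne' (Nat.dvd_one.1 this)
      refine ⟨fun h6 => ?_, fun h6 => ?_⟩
      · have h7 : p ∣ y ^ 8 := by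
          have h8 : p ∣ c ^ 8 + 14 * c ^ 4 * y ^ 4 :=
            Dvd.dvd.trans h6 ⟨c ^ 7 + 14 * c ^ 3 * y ^ 4, by ring⟩
          rw [hW] at hpW
          exact (Nat.dvd_add_right h8).1 hpW
        exact h5 h6 (hp.dvd_of_dvd_pow h7)
      · have h7 : p ∣ c ^ 8 := by
          have h8 : p ∣ 14 * c ^ 4 * y ^ 4 + y ^ 8 :=
            Dvd.dvd.trans h6 ⟨14 * c ^ 4 * y ^ 3 + y ^ 7, by ring⟩
          rw [hW, add_assoc] at hpW
          exact (Nat.dvd_add_left h8).1 hpW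
        exact h5 (hp.dvd_of_dvd_pow h7) h6
    have hcopW : Nat.Coprime (108 * f ^ 4) (W ^ 3) := by
      refine Nat.Coprime.pow_right 3 (Nat.coprime_of_dvd fun p hp h5 h6 => ?_)
      have h7 : p ∣ 6 ∨ p ∣ f := by
        rcases (Nat.Prime.dvd_mul hp).1 h5 with h8 | h8
        · left
          have h9 : p ∣ 6 ^ 3 := h8.trans (by norm_num)
          exact hp.dvd_of_dvd_pow h9
        · exact Or.inr (hp.dvd_of_dvd_pow h8)
      rcases h7 with h7 | h7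
      · have h8 : p ∣ 2 ∨ p ∣ 3 := (Nat.Prime.dvd_mul hp).1 (show p ∣ 2 * 3 from h7)
        rcases h8 with h8 | h8
        · rw [(Nat.prime_dvd_prime_iff_eq hp Nat.prime_two).1 h8] at h6
          exact (Nat.not_even_iff_odd.2 hWodd) (even_iff_two_dvd.2 h6)
        · rw [(Nat.prime_dvd_prime_iff_eq hp Nat.prime_three).1 h8] at h6
          exact hW3 h6
      · obtain ⟨h8, h9⟩ := hp1 p hp h6
        rw [hf] at h7
        rcases (Nat.Prime.dvd_mul hp).1 h7 with h10 | h10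
        · rcases (Nat.Prime.dvd_mul hp).1 h10 with h11 | h11
          · exact h8 h11
          · exact h9 h11
        · -- `p ∣ c ^ 4 - y ^ 4`
          have h11 : (p : ℤ) ∣ (c : ℤ) ^ 4 - (y : ℤ) ^ 4 := by
            rw [← hgz]
            exact Int.natCast_dvd_natCast.2 h10
          have h12 : (p : ℤ) ∣ (W : ℤ) := Int.natCast_dvd_natCast.2 h6
          have h13 : (p : ℤ) ∣ ((2 * c) ^ 8 : ℕ) := by
            have e : (((2 * c) ^ 8 : ℕ) : ℤ) = 16 * (W : ℤ) +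
                ((c : ℤ) ^ 4 - (y : ℤ) ^ 4) * (240 * (c : ℤ) ^ 4 + 16 * (y : ℤ) ^ 4) := by
              rw [hW]
              push_cast
              ring
            rw [e]
            exact dvd_add (h12.mul_left 16) (h11.mul_right _)
          have h14 : p ∣ 2 * c := hp.dvd_of_dvd_pow (Int.natCast_dvd_natCast.1 h13)
          rcases (Nat.Prime.dvd_mul hp).1 h14 with h15 | h15
          · rw [(Nat.prime_dvd_prime_iff_eq hp Nat.prime_two).1 h15] at h6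
            exact (Nat.not_even_iff_odd.2 hWodd) (even_iff_two_dvd.2 h6)
          · exact h8 h15
    have hcop' : Nat.Coprime (K ^ 2) (108 * f ^ 4) := by
      rw [← hidn] at hcopW
      exact (Nat.coprime_add_self_right.1 (by
        rw [add_comm (K ^ 2)] at hcopW
        rw [add_comm (K ^ 2)]
        exact hcopW)).symm
    have hg0 : 0 < g := by rw [hg]; positivity
    have hf0 : 0 < f := by rw [hf]; positivity
    refine ⟨(K ^ 2, 108 * f ^ 4, W ^ 3), ⟨⟨by positivity, by positivity, hcop', hidn⟩,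
      K, f, W, rfl, rfl, rfl⟩, 24, by norm_num, by norm_num, ?_, ?_⟩
    · show c ^ 24 ≤ 6 * 2 * 2 * 68 * 16 * W ^ 3
      have h5 : c ^ 8 ≤ W := by rw [hW]; omega
      calc c ^ 24 = (c ^ 8) ^ 3 := by ring
        _ ≤ W ^ 3 := Nat.pow_le_pow_left h5 3
        _ ≤ _ := Nat.le_mul_of_pos_left _ (by norm_num)
    · show R (K ^ 2 * (108 * f ^ 4) * W ^ 3) ≤
        R (a * b * c) * (6 * 2 * 2 * 68 * 16 * c ^ (24 - 1))
      have hne : a * b * c ≠ 0 := by positivity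
      have hW0 : 0 < W := by
        have : 0 < c ^ 8 := by positivity
        omega
      have h6 : R (K ^ 2 * (108 * f ^ 4) * W ^ 3) ≤
          R (a * b * c) * (6 * ((c + y) * (c ^ 2 + y ^ 2)) * K * W) := by
        refine R_le_of hne (by positivity) fun p hp hpd => ?_
        rw [← hprod]
        have hsplit : p ∣ K ∨ p ∣ 6 ∨ p ∣ f ∨ p ∣ W := by
          rcases (Nat.Prime.dvd_mul hp).1 hpd with h7 | h7
          · rcases (Nat.Prime.dvd_mul hp).1 h7 with h8 | h8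
            · exact Or.inl (hp.dvd_of_dvd_pow h8)
            · rcases (Nat.Prime.dvd_mul hp).1 h8 with h9 | h9
              · have h10 : p ∣ 6 ^ 3 := h9.trans (by norm_num)
                exact Or.inr (Or.inl (hp.dvd_of_dvd_pow h10))
              · exact Or.inr (Or.inr (Or.inl (hp.dvd_of_dvd_pow h9)))
          · exact Or.inr (Or.inr (Or.inr (hp.dvd_of_dvd_pow h7)))
        rcases hsplit with h7 | h7 | h7 | h7
        · exact h7.trans ⟨c * y * z * (6 * ((c + y) * (c ^ 2 + y ^ 2))) * W, by ring⟩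
        · exact h7.trans ⟨c * y * z * ((c + y) * (c ^ 2 + y ^ 2)) * K * W, by ring⟩
        · rw [hf, hg] at h7
          exact h7.trans ⟨6 * K * W, by ring⟩
        · exact h7.trans ⟨c * y * z * (6 * ((c + y) * (c ^ 2 + y ^ 2))) * K, by ring⟩
      refine h6.trans (Nat.mul_le_mul_left _ ?_)
      have hyc' : y ≤ c := by omega
      have b1 : c + y ≤ 2 * c := by omega
      have b2 : c ^ 2 + y ^ 2 ≤ 2 * c ^ 2 := by
        have := Nat.pow_le_pow_left hyc' 2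
        omega
      have b3 : K ≤ 68 * c ^ 12 := by
        have hC : (0 : ℤ) ≤ c := Int.natCast_nonneg _
        have hY : (0 : ℤ) ≤ y := Int.natCast_nonneg _
        have hYC : (y : ℤ) ≤ c := by exact_mod_cast hyc'
        have q1 : (c : ℤ) ^ 8 * (y : ℤ) ^ 4 ≤ (c : ℤ) ^ 12 := by
          calc (c : ℤ) ^ 8 * (y : ℤ) ^ 4 ≤ (c : ℤ) ^ 8 * (c : ℤ) ^ 4 := by gcongr
            _ = _ := by ring
        have q2 : (c : ℤ) ^ 4 * (y : ℤ) ^ 8 ≤ (c : ℤ) ^ 12 := by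
          calc (c : ℤ) ^ 4 * (y : ℤ) ^ 8 ≤ (c : ℤ) ^ 4 * (c : ℤ) ^ 8 := by gcongr
            _ = _ := by ring
        have q3 : (y : ℤ) ^ 12 ≤ (c : ℤ) ^ 12 := by gcongr
        have q4 : 0 ≤ (c : ℤ) ^ 8 * (y : ℤ) ^ 4 := by positivity
        have q5 : 0 ≤ (c : ℤ) ^ 4 * (y : ℤ) ^ 8 := by positivity
        have q6 : 0 ≤ (y : ℤ) ^ 12 := by positivity
        have q7 : 0 ≤ (c : ℤ) ^ 12 := by positivity
        have habs : |k| ≤ 68 * (c : ℤ) ^ 12 := by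
          rw [hk, abs_le]
          constructor <;> linarith
        have : (K : ℤ) ≤ 68 * (c : ℤ) ^ 12 := by
          rw [hK, Int.natCast_natAbs]
          exact habs
        exact_mod_cast this
      have b4 : W ≤ 16 * c ^ 8 := by
        rw [hW]
        have q1 : c ^ 4 * y ^ 4 ≤ c ^ 8 := by
          calc c ^ 4 * y ^ 4 ≤ c ^ 4 * c ^ 4 := by gcongr
            _ = _ := by ring
        have q2 : y ^ 8 ≤ c ^ 8 := by gcongr
        have q3 : 14 * c ^ 4 * y ^ 4 = 14 * (c ^ 4 * y ^ 4) := by ring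
        rw [q3]
        omega
      calc 6 * ((c + y) * (c ^ 2 + y ^ 2)) * K * W ≤
            6 * ((2 * c) * (2 * c ^ 2)) * (68 * c ^ 12) * (16 * c ^ 8) := by gcongr
        _ = 6 * 2 * 2 * 68 * 16 * c ^ (24 - 1) := by ring

/-- `x ^ 3 + y ^ 3 = z ^ 2`, where `y` may be negative -/
def Tet : Set (ℕ × ℕ × ℕ) :=
  {t | IsTriple t ∧ ∃ x y z : ℕ, (t.1 = x ^ 3 ∧ t.2.1 = y ^ 3 ∧ t.2.2 = z ^ 2) ∨
    (t.1 = z ^ 2 ∧ t.2.1 = y ^ 3 ∧ t.2.2 = x ^ 3)}

/-- the forms of the tetrahedral covering -/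
lemma tet_forms {s t : ℤ} (hcop : IsCoprime s t) (hs : Odd s) (h3 : ¬ (3 : ℤ) ∣ s - t)
    (ht : t ≠ 0) (hst : s ≠ t) :
    (s * (s ^ 3 + 8 * t ^ 3)) ^ 3 + (4 * t * (t ^ 3 - s ^ 3)) ^ 3 =
      (s ^ 6 - 20 * s ^ 3 * t ^ 3 - 8 * t ^ 6) ^ 2 ∧
    Odd (s * (s ^ 3 + 8 * t ^ 3)) ∧ 4 * t * (t ^ 3 - s ^ 3) ≠ 0 ∧
    Odd (s ^ 6 - 20 * s ^ 3 * t ^ 3 - 8 * t ^ 6) ∧
    IsCoprime (s * (s ^ 3 + 8 * t ^ 3)) (4 * t * (t ^ 3 - s ^ 3)) := by
  have h8 : Even (8 * t ^ 3) := ⟨4 * t ^ 3, by ring⟩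
  have ho1 : Odd (s ^ 3 + 8 * t ^ 3) := (hs.pow).add_even h8
  have ho2 : Odd (s * (s ^ 3 + 8 * t ^ 3)) := hs.mul ho1
  have hq : 0 < t ^ 2 + t * s + s ^ 2 := by
    have h1 : 0 < t ^ 2 := by positivity
    nlinarith [sq_nonneg (t + 2 * s), sq_nonneg (2 * t + s), sq_nonneg s]
  refine ⟨by ring, ho2, ?_, ?_, ?_⟩
  · have : t ^ 3 - s ^ 3 = (t - s) * (t ^ 2 + t * s + s ^ 2) := by ring
    rw [this]
    have h1 : t - s ≠ 0 := sub_ne_zero.2 (Ne.symm hst)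
    exact mul_ne_zero (mul_ne_zero (by norm_num) ht) (mul_ne_zero h1 hq.ne')
  · have h1 : Even (20 * s ^ 3 * t ^ 3) := ⟨10 * s ^ 3 * t ^ 3, by ring⟩
    have h2 : Even (8 * t ^ 6) := ⟨4 * t ^ 6, by ring⟩
    exact ((hs.pow).sub_even h1).sub_even h2
  · -- coprime
    rw [Int.isCoprime_iff_gcd_eq_one]
    by_contra hcon
    obtain ⟨p, hp, hpd⟩ := Nat.exists_prime_and_dvd hcon
    have hpZ : Prime (p : ℤ) := Nat.prime_iff_prime_int.1 hp
    have hA : (p : ℤ) ∣ s * (s ^ 3 + 8 * t ^ 3) :=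
      (Int.natCast_dvd_natCast.2 hpd).trans (Int.gcd_dvd_left ..)
    have hB : (p : ℤ) ∣ 4 * t * (t ^ 3 - s ^ 3) :=
      (Int.natCast_dvd_natCast.2 hpd).trans (Int.gcd_dvd_right ..)
    have hnot : ¬ ((p : ℤ) ∣ s ∧ (p : ℤ) ∣ t) := fun ⟨h1, h2⟩ =>
      hpZ.not_isUnit (hcop.isUnit_of_dvd' h1 h2)
    have h2 : ¬ (p : ℤ) ∣ 2 := by
      intro h2
      have h4 : p ∣ 2 := by exact_mod_cast h2
      rw [(Nat.prime_dvd_prime_iff_eq hp Nat.prime_two).1 h4] at hA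
      have := even_iff_two_dvd.2 hA
      exact (Int.not_even_iff_odd.2 ho2) this
    have h4 : ¬ (p : ℤ) ∣ 4 := fun h => h2 (hpZ.dvd_of_dvd_pow (show (p : ℤ) ∣ 2 ^ 2 from h))
    rcases hpZ.dvd_or_dvd hA with h5 | h5
    · rcases hpZ.dvd_or_dvd hB with h6 | h6
      · rcases hpZ.dvd_or_dvd h6 with h7 | h7
        · exact h4 h7
        · exact hnot ⟨h5, h7⟩
      · have h7 : (p : ℤ) ∣ t ^ 3 := by
          have : t ^ 3 = (t ^ 3 - s ^ 3) + s * s ^ 2 := by ring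
          rw [this]
          exact dvd_add h6 (h5.mul_right _)
        exact hnot ⟨h5, hpZ.dvd_of_dvd_pow h7⟩
    · rcases hpZ.dvd_or_dvd hB with h6 | h6
      · rcases hpZ.dvd_or_dvd h6 with h7 | h7
        · exact h4 h7
        · have h8 : (p : ℤ) ∣ s ^ 3 := by
            have : s ^ 3 = (s ^ 3 + 8 * t ^ 3) - t * (8 * t ^ 2) := by ring
            rw [this]
            exact dvd_sub h5 (h7.mul_right _)
          exact hnot ⟨hpZ.dvd_of_dvd_pow h8, h7⟩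
      · -- `p ∣ 9 t ^ 3`
        have h7 : (p : ℤ) ∣ 3 ^ 2 * t ^ 3 := by
          have : 3 ^ 2 * t ^ 3 = (s ^ 3 + 8 * t ^ 3) + (t ^ 3 - s ^ 3) := by ring
          rw [this]
          exact dvd_add h5 h6
        rcases hpZ.dvd_or_dvd h7 with h8 | h8
        · have h9 : (p : ℤ) ∣ 3 := hpZ.dvd_of_dvd_pow h8
          have h10 : p = 3 := by
            have h11 : p ∣ 3 := by exact_mod_cast h9
            exact (Nat.prime_dvd_prime_iff_eq hp Nat.prime_three).1 h11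
          rw [h10] at h6
          apply h3
          have h11 : ((3 : ℕ) : ℤ) ∣ (s - t) ^ 3 := by
            have : (s - t) ^ 3 = -(t ^ 3 - s ^ 3) + 3 * (s * t ^ 2 - s ^ 2 * t) := by ring
            rw [this]
            push_cast
            exact dvd_add (dvd_neg.2 (by exact_mod_cast h6)) (dvd_mul_right _ _)
          exact Int.prime_three.dvd_of_dvd_pow (by exact_mod_cast h11)
        · have h9 : (p : ℤ) ∣ t := hpZ.dvd_of_dvd_pow h8
          have h10 : (p : ℤ) ∣ s ^ 3 := by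
            have : s ^ 3 = t * t ^ 2 - (t ^ 3 - s ^ 3) := by ring
            rw [this]
            exact dvd_sub (h9.mul_right _) h6
          exact hnot ⟨hpZ.dvd_of_dvd_pow h10, h9⟩

/-- the lower bound for the forms -/
lemma tet_low {s t M : ℝ} (hs : |s| ≤ M) (ht : |t| ≤ M) (hM : 0 < M) (hst : M = |s| ∨ M = |t|)
    {B : ℝ} (h1 : |s * (s ^ 3 + 8 * t ^ 3)| ≤ B) (h2 : |4 * t * (t ^ 3 - s ^ 3)| ≤ B) :
    M ^ 4 ≤ 4 * B := by
  have hB : 0 ≤ B := (abs_nonneg _).trans h1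
  obtain ⟨p, hp⟩ : ∃ p : ℝ, p = s * (s ^ 3 + 8 * t ^ 3) := ⟨_, rfl⟩
  obtain ⟨q, hq⟩ : ∃ q : ℝ, q = 4 * t * (t ^ 3 - s ^ 3) := ⟨_, rfl⟩
  rw [← hp] at h1
  rw [← hq] at h2
  have b3 : ∀ z : ℝ, |z| ≤ M → |z| ^ 3 ≤ M ^ 3 := fun z hz => pow_le_pow_left₀ (abs_nonneg z) hz 3
  have main : ∀ z : ℝ, M = |z| → 36 * |z| ^ 7 ≤ 132 * M ^ 3 * B → M ^ 4 ≤ 4 * B := by
    intro z hz h
    rw [← hz] at h
    have h5 : M ^ 3 * (36 * M ^ 4) ≤ M ^ 3 * (132 * B) := by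
      calc M ^ 3 * (36 * M ^ 4) = 36 * M ^ 7 := by ring
        _ ≤ 132 * M ^ 3 * B := h
        _ = _ := by ring
    have h6 := le_of_mul_le_mul_left h5 (by positivity)
    linarith
  rcases hst with h | h
  · apply main s h
    have e : 36 * s ^ 7 = 36 * (s ^ 3 * p) - 32 * (t ^ 3 * p) + 64 * (s * t ^ 2 * q) := by
      rw [hp, hq]
      ring
    calc 36 * |s| ^ 7 = |36 * s ^ 7| := by rw [abs_mul, abs_pow]; norm_num
      _ = |36 * (s ^ 3 * p) - 32 * (t ^ 3 * p) + 64 * (s * t ^ 2 * q)| := by rw [e]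
      _ ≤ |36 * (s ^ 3 * p)| + |32 * (t ^ 3 * p)| + |64 * (s * t ^ 2 * q)| :=
          (abs_add_le _ _).trans (by gcongr; exact abs_sub _ _)
      _ = 36 * (|s| ^ 3 * |p|) + 32 * (|t| ^ 3 * |p|) + 64 * (|s| * |t| ^ 2 * |q|) := by
          simp only [abs_mul, abs_pow]
          norm_num
      _ ≤ 36 * (M ^ 3 * B) + 32 * (M ^ 3 * B) + 64 * (M * M ^ 2 * B) := by gcongr
      _ = 132 * M ^ 3 * B := by ring
  · apply main t h
    have e : 36 * t ^ 7 = 9 * (t ^ 3 * q) + 9 * (s ^ 3 * q) + 4 * (s ^ 2 * t * p) -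
        8 * (s ^ 3 * q) := by
      rw [hp, hq]
      ring
    calc 36 * |t| ^ 7 = |36 * t ^ 7| := by rw [abs_mul, abs_pow]; norm_num
      _ = |9 * (t ^ 3 * q) + 9 * (s ^ 3 * q) + 4 * (s ^ 2 * t * p) - 8 * (s ^ 3 * q)| := by rw [e]
      _ ≤ |9 * (t ^ 3 * q) + 9 * (s ^ 3 * q) + 4 * (s ^ 2 * t * p)| + |8 * (s ^ 3 * q)| :=
          abs_sub _ _
      _ ≤ |9 * (t ^ 3 * q)| + |9 * (s ^ 3 * q)| + |4 * (s ^ 2 * t * p)| + |8 * (s ^ 3 * q)| := by
          gcongr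
          exact (abs_add_le _ _).trans (by gcongr; exact abs_add_le _ _)
      _ = 9 * (|t| ^ 3 * |q|) + 9 * (|s| ^ 3 * |q|) + 4 * (|s| ^ 2 * |t| * |p|) +
          8 * (|s| ^ 3 * |q|) := by
          simp only [abs_mul, abs_pow]
          norm_num
      _ ≤ 9 * (M ^ 3 * B) + 9 * (M ^ 3 * B) + 4 * (M ^ 2 * M * B) + 8 * (M ^ 3 * B) := by gcongr
      _ = 30 * M ^ 3 * B := by ring
      _ ≤ 132 * M ^ 3 * B := by
          have : 0 ≤ M ^ 3 * B := by positivity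
          linarith

end Q265.SP
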