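import Pool.Agent.Q265.SP.B

/-! # Spherical signatures: the tetrahedral family, conclusion -/

set_option autoImplicit false

open Finset

namespace Q265.SP

open Q241.AC (R)
open Q265.LO

/-- one triple from a pair -/
theorem tet_pair {a b c s t : ℕ} (ha : 0 < a) (hb : 0 < b) (hc : 0 < c) (hs0 : 0 < s) (ht0 : 0 < t)
    (hsc : s ≤ c) (htc : t ≤ c) (hmax : s = c ∨ t = c) (hcop : Nat.Coprime s t) (hs : Odd s)
    (h3 : ¬ (3 : ℤ) ∣ (s : ℤ) - t) (hst : s ≠ t)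
    (hprod : ((s : ℤ) * t * ((s : ℤ) - t)).natAbs = a * b * c) :
    ∃ t' ∈ Tet, c ^ 12 ≤ 1566 * t'.2.2 ∧
      R (t'.1 * t'.2.1 * t'.2.2) ≤ R (a * b * c) * (1566 * c ^ (12 - 1)) := by
  obtain ⟨S, hS⟩ : ∃ S : ℤ, S = (s : ℤ) := ⟨_, rfl⟩
  obtain ⟨T, hT⟩ : ∃ T : ℤ, T = (t : ℤ) := ⟨_, rfl⟩
  have hcopZ : IsCoprime S T := by
    rw [hS, hT]
    exact Nat.isCoprime_iff_coprime.2 hcop
  have hSodd : Odd S := by
    rw [hS]
    exact_mod_cast hs
  have hT0 : T ≠ 0 := by rw [hT]; exact_mod_cast ht0.ne'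
  have hST : S ≠ T := by rw [hS, hT]; exact_mod_cast hst
  rw [← hS, ← hT] at h3
  obtain ⟨e1, e2, e3, e4, e5⟩ := tet_forms hcopZ hSodd h3 hT0 hST
  obtain ⟨A, hA⟩ : ∃ A : ℤ, A = S * (S ^ 3 + 8 * T ^ 3) := ⟨_, rfl⟩
  obtain ⟨B, hB⟩ : ∃ B : ℤ, B = 4 * T * (T ^ 3 - S ^ 3) := ⟨_, rfl⟩
  obtain ⟨C, hC⟩ : ∃ C : ℤ, C = S ^ 6 - 20 * S ^ 3 * T ^ 3 - 8 * T ^ 6 := ⟨_, rfl⟩
  rw [← hA] at e1 e2 e5
  rw [← hB] at e1 e3 e5
  rw [← hC] at e1 e4
  have hSp : 0 < S := by rw [hS]; exact_mod_cast hs0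
  have hTp : 0 < T := by rw [hT]; exact_mod_cast ht0
  have hAp : 0 < A := by rw [hA]; positivity
  have hC0 : C ≠ 0 := by
    intro h
    rw [h] at e4
    exact (by decide : ¬ Odd (0 : ℤ)) e4
  obtain ⟨α, hα⟩ : ∃ α : ℕ, α = A.natAbs := ⟨_, rfl⟩
  obtain ⟨β, hβ⟩ : ∃ β : ℕ, β = B.natAbs := ⟨_, rfl⟩
  obtain ⟨γ, hγ⟩ : ∃ γ : ℕ, γ = C.natAbs := ⟨_, rfl⟩
  have hα0 : 0 < α := by rw [hα]; exact Int.natAbs_pos.2 hAp.ne'
  have hβ0 : 0 < β := by rw [hβ]; exact Int.natAbs_pos.2 e3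
  have hγ0 : 0 < γ := by rw [hγ]; exact Int.natAbs_pos.2 hC0
  have hαA : (α : ℤ) = A := by rw [hα]; exact Int.natAbs_of_nonneg hAp.le
  have hγ2 : (γ : ℤ) ^ 2 = C ^ 2 := by rw [hγ, Int.natCast_natAbs, sq_abs]
  have hcopn : Nat.Coprime α β := by
    rw [hα, hβ]
    exact Int.isCoprime_iff_gcd_eq_one.1 e5
  have hcop3 : Nat.Coprime (α ^ 3) (β ^ 3) := Nat.Coprime.pow 3 3 hcopn
  -- bounds
  have hlow : c ^ 4 ≤ 4 * max α β := by
    have hM : (0 : ℝ) < c := by exact_mod_cast hc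
    have hAr : |(s : ℝ) * ((s : ℝ) ^ 3 + 8 * (t : ℝ) ^ 3)| ≤ ((max α β : ℕ) : ℝ) := by
      have : (s : ℝ) * ((s : ℝ) ^ 3 + 8 * (t : ℝ) ^ 3) = (A : ℝ) := by
        rw [hA, hS, hT]
        push_cast
        ring
      rw [this]
      have h5 : |(A : ℝ)| = (α : ℝ) := by
        rw [hα, Nat.cast_natAbs]
        push_cast
        rfl
      rw [h5]
      exact_mod_cast le_max_left α β
    have hBr : |4 * (t : ℝ) * ((t : ℝ) ^ 3 - (s : ℝ) ^ 3)| ≤ ((max α β : ℕ) : ℝ) := by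
      have : 4 * (t : ℝ) * ((t : ℝ) ^ 3 - (s : ℝ) ^ 3) = (B : ℝ) := by
        rw [hB, hS, hT]
        push_cast
        ring
      rw [this]
      have h5 : |(B : ℝ)| = (β : ℝ) := by
        rw [hβ, Nat.cast_natAbs]
        push_cast
        rfl
      rw [h5]
      exact_mod_cast le_max_right α β
    have h6 := tet_low (s := (s : ℝ)) (t := (t : ℝ)) (M := (c : ℝ))
      (by rw [Nat.abs_cast]; exact_mod_cast hsc) (by rw [Nat.abs_cast]; exact_mod_cast htc) hM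
      (by
        rcases hmax with h | h
        · left
          rw [Nat.abs_cast, h]
        · right
          rw [Nat.abs_cast, h]) hAr hBr
    exact_mod_cast h6
  obtain ⟨u, hu⟩ : ∃ u : ℕ, u = s ^ 3 + 8 * t ^ 3 := ⟨_, rfl⟩
  obtain ⟨v, hv⟩ : ∃ v : ℕ, v = t ^ 2 + t * s + s ^ 2 := ⟨_, rfl⟩
  have hu0 : 0 < u := by rw [hu]; positivity
  have hv0 : 0 < v := by rw [hv]; positivity
  have hαu : α = s * u := by
    have : (α : ℤ) = ((s * u : ℕ) : ℤ) := by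
      rw [hαA, hA, hu, hS, hT]
      push_cast
      ring
    exact_mod_cast this
  have hβv : β = 4 * t * ((s : ℤ) - t).natAbs * v := by
    have h5 : B = -(4 * (t : ℤ) * ((s : ℤ) - t) * (v : ℤ)) := by
      rw [hB, hv, hS, hT]
      push_cast
      ring
    rw [hβ, h5, Int.natAbs_neg, Int.natAbs_mul, Int.natAbs_mul, Int.natAbs_mul]
    simp
  have hprod' : s * t * ((s : ℤ) - t).natAbs = a * b * c := by
    rw [← hprod, Int.natAbs_mul, Int.natAbs_mul]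
    simp
  have hne : a * b * c ≠ 0 := by positivity
  have hRad : ∀ m : ℕ, (∀ p : ℕ, p.Prime → p ∣ m → p ∣ α ∨ p ∣ β ∨ p ∣ γ) →
      R m ≤ R (a * b * c) * (1566 * c ^ (12 - 1)) := by
    intro m hm
    have h6 : R m ≤ R (a * b * c) * (2 * u * v * γ) := by
      refine R_le_of hne (by positivity) fun p hp hpd => ?_
      rw [← hprod']
      rcases hm p hp hpd with h7 | h7 | h7
      · rw [hαu] at h7
        exact h7.trans ⟨t * ((s : ℤ) - t).natAbs * (2 * v * γ), by ring⟩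
      · rw [hβv] at h7
        have h8 : p ∣ 2 ∨ p ∣ t * ((s : ℤ) - t).natAbs * v := by
          rw [show 4 * t * ((s : ℤ) - t).natAbs * v = 2 ^ 2 * (t * ((s : ℤ) - t).natAbs * v) by ring]
            at h7
          rcases (Nat.Prime.dvd_mul hp).1 h7 with h9 | h9
          · exact Or.inl (hp.dvd_of_dvd_pow h9)
          · exact Or.inr h9
        rcases h8 with h8 | h8
        · exact h8.trans ⟨s * t * ((s : ℤ) - t).natAbs * (u * v * γ), by ring⟩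
        · exact h8.trans ⟨s * (2 * u * γ), by ring⟩
      · exact h7.trans ⟨s * t * ((s : ℤ) - t).natAbs * (2 * u * v), by ring⟩
    refine h6.trans (Nat.mul_le_mul_left _ ?_)
    have b1 : u ≤ 9 * c ^ 3 := by
      rw [hu]
      have := Nat.pow_le_pow_left hsc 3
      have := Nat.pow_le_pow_left htc 3
      omega
    have b2 : v ≤ 3 * c ^ 2 := by
      rw [hv]
      have := Nat.pow_le_pow_left hsc 2
      have := Nat.pow_le_pow_left htc 2
      have : t * s ≤ c * c := Nat.mul_le_mul htc hsc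
      nlinarith
    have b3 : γ ≤ 29 * c ^ 6 := by
      have hSC : S ≤ c := by rw [hS]; exact_mod_cast hsc
      have hTC : T ≤ c := by rw [hT]; exact_mod_cast htc
      have q1 : S ^ 6 ≤ (c : ℤ) ^ 6 := by gcongr
      have q2 : T ^ 6 ≤ (c : ℤ) ^ 6 := by gcongr
      have q3 : S ^ 3 * T ^ 3 ≤ (c : ℤ) ^ 6 := by
        calc S ^ 3 * T ^ 3 ≤ (c : ℤ) ^ 3 * (c : ℤ) ^ 3 := by gcongr
          _ = _ := by ring
      have q4 : 0 ≤ S ^ 6 := by positivity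
      have q5 : 0 ≤ T ^ 6 := by positivity
      have q6 : 0 ≤ S ^ 3 * T ^ 3 := by positivity
      have habs : |C| ≤ 29 * (c : ℤ) ^ 6 := by
        rw [hC, abs_le]
        constructor <;> nlinarith
      have : (γ : ℤ) ≤ 29 * (c : ℤ) ^ 6 := by
        rw [hγ, Int.natCast_natAbs]
        exact habs
      exact_mod_cast this
    calc 2 * u * v * γ ≤ 2 * (9 * c ^ 3) * (3 * c ^ 2) * (29 * c ^ 6) := by gcongr
      _ = 1566 * c ^ (12 - 1) := by ring
  have hpow : c ^ 12 ≤ 64 * (max α β) ^ 3 := by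
    calc c ^ 12 = (c ^ 4) ^ 3 := by ring
      _ ≤ (4 * max α β) ^ 3 := Nat.pow_le_pow_left hlow 3
      _ = _ := by ring
  have hdvd : ∀ p : ℕ, p.Prime → p ∣ α ^ 3 * β ^ 3 * γ ^ 2 → p ∣ α ∨ p ∣ β ∨ p ∣ γ := by
    intro p hp h
    rcases (Nat.Prime.dvd_mul hp).1 h with h | h
    · rcases (Nat.Prime.dvd_mul hp).1 h with h | h
      · exact Or.inl (hp.dvd_of_dvd_pow h)
      · exact Or.inr (Or.inl (hp.dvd_of_dvd_pow h))
    · exact Or.inr (Or.inr (hp.dvd_of_dvd_pow h))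
  rcases lt_or_gt_of_ne e3 with hBn | hBp
  · -- `B < 0`
    have hβB : (β : ℤ) = -B := by rw [hβ]; exact Int.ofNat_natAbs_of_nonpos hBn.le
    have hid : γ ^ 2 + β ^ 3 = α ^ 3 := by
      have : (γ : ℤ) ^ 2 + (β : ℤ) ^ 3 = (α : ℤ) ^ 3 := by
        rw [hγ2, hβB, hαA, ← e1]
        ring
      exact_mod_cast this
    have hβα : β ≤ α := by
      by_contra hcon
      push Not at hcon
      have := Nat.pow_lt_pow_left hcon (show 3 ≠ 0 by norm_num)
      omega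
    refine ⟨(γ ^ 2, β ^ 3, α ^ 3), ⟨⟨by positivity, by positivity, ?_, hid⟩, α, β, γ,
      Or.inr ⟨rfl, rfl, rfl⟩⟩, ?_, ?_⟩
    · show Nat.Coprime (γ ^ 2) (β ^ 3)
      rw [← hid] at hcop3
      exact (Nat.coprime_add_self_left).1 hcop3
    · show c ^ 12 ≤ 1566 * α ^ 3
      rw [max_eq_left hβα] at hpow
      omega
    · refine hRad _ fun p hp h => hdvd p hp ?_
      rw [show α ^ 3 * β ^ 3 * γ ^ 2 = γ ^ 2 * β ^ 3 * α ^ 3 by ring]
      exact h
  · -- `B > 0`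
    have hβB : (β : ℤ) = B := by rw [hβ]; exact Int.natAbs_of_nonneg hBp.le
    have hid : α ^ 3 + β ^ 3 = γ ^ 2 := by
      have : (α : ℤ) ^ 3 + (β : ℤ) ^ 3 = (γ : ℤ) ^ 2 := by
        rw [hγ2, hβB, hαA, ← e1]
      exact_mod_cast this
    refine ⟨(α ^ 3, β ^ 3, γ ^ 2), ⟨⟨by positivity, by positivity, hcop3, hid⟩, α, β, γ,
      Or.inl ⟨rfl, rfl, rfl⟩⟩, ?_, ?_⟩
    · show c ^ 12 ≤ 1566 * γ ^ 2
      rcases max_choice α β with h | h
      · rw [h] at hpow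
        omega
      · rw [h] at hpow
        omega
    · exact hRad _ fun p hp h => hdvd p hp h

theorem tet (h : On Tet) : On {t | IsTriple t} := by
  refine back2 1566 ?_ ?_ h
  · rintro t ⟨h1, h2, h3, h4⟩
    omega
  · rintro ⟨a, b, c⟩ ⟨h1, h2, h3, h4⟩
    simp only at h1 h2 h3 h4
    have hc0 : 0 < c := by omega
    have hcopa : Nat.Coprime a c := by
      rw [← h4, add_comm]
      exact (Nat.coprime_add_self_right).2 h3
    have hcopb : Nat.Coprime b c := by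
      rw [← h4]
      exact (Nat.coprime_add_self_right).2 h3.symm
    have no2 : ¬ (2 ∣ a ∧ 2 ∣ b) := fun ⟨h5, h6⟩ => by
      have := Nat.dvd_gcd h5 h6
      rw [h3] at this
      omega
    have no3 : ¬ (3 ∣ a ∧ 3 ∣ b) := fun ⟨h5, h6⟩ => by
      have := Nat.dvd_gcd h5 h6
      rw [h3] at this
      omega
    have fin : ∀ s t : ℕ, 0 < s → 0 < t → s ≤ c → t ≤ c → (s = c ∨ t = c) → Nat.Coprime s t →
        Odd s → ¬ (3 : ℤ) ∣ (s : ℤ) - t → s ≠ t →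
        ((s : ℤ) * t * ((s : ℤ) - t)).natAbs = a * b * c →
        ∃ t' ∈ Tet, ∃ d : ℕ, 1 ≤ d ∧ d ≤ 1566 ∧ c ^ d ≤ 1566 * t'.2.2 ∧
          R (t'.1 * t'.2.1 * t'.2.2) ≤ R (a * b * c) * (1566 * c ^ (d - 1)) := by
      intro s t k1 k2 k3 k4 k5 k6 k7 k8 k9 k10
      obtain ⟨t', g1, g2, g3⟩ := tet_pair h1 h2 hc0 k1 k2 k3 k4 k5 k6 k7 k8 k9 k10
      exact ⟨t', g1, 12, by norm_num, by norm_num, g2, g3⟩
    have hcz : (c : ℤ) = a + b := by exact_mod_cast h4.symm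
    show ∃ t' ∈ Tet, ∃ d : ℕ, 1 ≤ d ∧ d ≤ 1566 ∧ c ^ d ≤ 1566 * t'.2.2 ∧
      R (t'.1 * t'.2.1 * t'.2.2) ≤ R (a * b * c) * (1566 * c ^ (d - 1))
    have p1 : ((a : ℤ) * c * ((a : ℤ) - c)).natAbs = a * b * c := by
      have : (a : ℤ) * c * ((a : ℤ) - c) = -((a * b * c : ℕ) : ℤ) := by
        push_cast
        rw [hcz]
        ring
      rw [this, Int.natAbs_neg, Int.natAbs_natCast]
    have p2 : ((b : ℤ) * c * ((b : ℤ) - c)).natAbs = a * b * c := by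
      have : (b : ℤ) * c * ((b : ℤ) - c) = -((a * b * c : ℕ) : ℤ) := by
        push_cast
        rw [hcz]
        ring
      rw [this, Int.natAbs_neg, Int.natAbs_natCast]
    have p3 : ((c : ℤ) * a * ((c : ℤ) - a)).natAbs = a * b * c := by
      have : (c : ℤ) * a * ((c : ℤ) - a) = ((a * b * c : ℕ) : ℤ) := by
        push_cast
        rw [hcz]
        ring
      rw [this, Int.natAbs_natCast]
    have p4 : ((c : ℤ) * b * ((c : ℤ) - b)).natAbs = a * b * c := by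
      have : (c : ℤ) * b * ((c : ℤ) - b) = ((a * b * c : ℕ) : ℤ) := by
        push_cast
        rw [hcz]
        ring
      rw [this, Int.natAbs_natCast]
    by_cases c1 : a % 2 = 1 ∧ ¬ 3 ∣ b
    · exact fin a c h1 hc0 (by omega) le_rfl (Or.inr rfl) hcopa (Nat.odd_iff.2 c1.1)
        (by rw [hcz]; omega) (by omega) p1
    by_cases c2 : b % 2 = 1 ∧ ¬ 3 ∣ a
    · exact fin b c h2 hc0 (by omega) le_rfl (Or.inr rfl) hcopb (Nat.odd_iff.2 c2.1)
        (by rw [hcz]; omega) (by omega) p2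
    by_cases c3 : 2 ∣ a
    · exact fin c a hc0 h1 le_rfl (by omega) (Or.inl rfl) hcopa.symm (Nat.odd_iff.2 (by omega))
        (by rw [hcz]; omega) (by omega) p3
    · exact fin c b hc0 h2 le_rfl (by omega) (Or.inl rfl) hcopb.symm (Nat.odd_iff.2 (by omega))
        (by rw [hcz]; omega) (by omega) p4

end Q265.SP
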